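import Mathlib
import Pool.Agent.H2R2.Cov2

set_option autoImplicit false

/-!
# MP_eba1ef_gt: `2^d` up to a factor `O(d log d)` for every convex body

Every convex body `K` in `ℝ^d`, `d ≥ 2`, symmetric or not, is covered by at most
`3 · 2^d · d · log (2 d² + 2 d + 1)` translates of its interior. In particular `c_d^(1/d) → 2`.

The proof: if `X, X'` are independent random points of a finite set `A ⊆ K`, then the average of
`|(X + lK) ∩ (X' + lK)|` is, by Cauchy-Schwarz, at least `|lK|² / |(1 + l) K|`, because the sum of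
the indicator functions of the sets `x + lK` lives on `(1 + l) K`; so some translate of `lK`
contains a share `(l / (1 + l))^d` of `A`. Apply this greedily to a net of `K`.
-/

namespace Pool.Agent.Results.MP_eba1ef_gt.AllConvexBodies

open Pool.Agent.H2R2.Cov

/-- **Main theorem.** Every convex body in `ℝ^d` is covered by at most
`3 · 2^d · d · log (2 d² + 2 d + 1)` translates of its interior. -/
theorem result (d : ℕ) (hd : 2 ≤ d) (K : Set (EuclideanSpace ℝ (Fin d)))
    (hK : Convex ℝ K) (hKc : IsCompact K) (hKi : (interior K).Nonempty) :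
    ∃ T : Finset (EuclideanSpace ℝ (Fin d)),
      K ⊆ ⋃ t ∈ T, (fun x => t + x) '' interior K ∧
      (T.card : ℝ) ≤ 3 * 2 ^ d * (d * Real.log (2 * d ^ 2 + 2 * d + 1)) := by
  have hfr : Module.finrank ℝ (EuclideanSpace ℝ (Fin d)) = d := by simp
  have hd' : (2 : ℝ) ≤ d := by exact_mod_cast hd
  have hd1 : (0 : ℝ) < d - 1 := by linarith
  have hd0 : (0 : ℝ) < d := by linarith
  obtain ⟨T, hT, hcard⟩ := cover_param K hK hKc hKi (by rw [hfr]; omega)
    (1 - 1 / d) (1 / (2 * d * (d + 1))) (by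
      rw [sub_pos, div_lt_one hd0]; linarith) (by positivity) (by
      rw [hfr]
      have : (1 : ℝ) / (2 * d * (d + 1)) + 1 / (2 * d * (d + 1)) * d = 1 / (2 * d) := by
        field_simp
        ring
      have h2 : (1 : ℝ) / (2 * d) < 1 / d := by
        rw [div_lt_div_iff₀ (by positivity) hd0]; linarith
      linarith)
  refine ⟨T, hT, hcard.trans ?_⟩
  rw [hfr]
  have e1 : (1 : ℝ) + 1 / (1 / (2 * d * (d + 1))) = 2 * d ^ 2 + 2 * d + 1 := by
    rw [one_div_one_div]; ring
  rw [e1]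
  have e2 : (1 + 1 / (1 - 1 / (d : ℝ))) = 2 * (1 + 1 / (2 * (d - 1))) := by
    have : (1 - 1 / (d : ℝ)) = (d - 1) / d := by field_simp
    rw [this]
    field_simp
    ring
  rw [e2, mul_pow]
  have e3 : (1 + 1 / (2 * ((d : ℝ) - 1))) ^ d ≤ Real.exp 1 := by
    have h1 : (1 + 1 / (2 * ((d : ℝ) - 1))) ≤ Real.exp (1 / (2 * (d - 1))) := by
      have := Real.add_one_le_exp (1 / (2 * ((d : ℝ) - 1)))
      linarith
    calc (1 + 1 / (2 * ((d : ℝ) - 1))) ^ d ≤ Real.exp (1 / (2 * (d - 1))) ^ d := by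
          gcongr
      _ = Real.exp (d * (1 / (2 * (d - 1)))) := by rw [← Real.exp_nat_mul]
      _ ≤ Real.exp 1 := by
          apply Real.exp_le_exp.mpr
          rw [mul_one_div, div_le_one (by linarith)]
          linarith
  have hlog : 2 ≤ Real.log (2 * (d : ℝ) ^ 2 + 2 * d + 1) := by
    rw [Real.le_log_iff_exp_le (by positivity)]
    have h1 : Real.exp 2 ≤ 9 := by
      have h := Real.exp_one_lt_d9
      have h2 : Real.exp 2 = Real.exp 1 * Real.exp 1 := by rw [← Real.exp_add]; norm_num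
      rw [h2]
      nlinarith [Real.exp_pos 1]
    nlinarith
  have he : Real.exp 1 < 2.7182818286 := Real.exp_one_lt_d9
  set Lg := Real.log (2 * (d : ℝ) ^ 2 + 2 * d + 1) with hLg
  have hdL : 4 ≤ d * Lg := by nlinarith
  have h2d : (4 : ℝ) ≤ 2 ^ d := by
    calc (4 : ℝ) = 2 ^ 2 := by norm_num
      _ ≤ 2 ^ d := pow_le_pow_right₀ (by norm_num) hd
  have hP : (16 : ℝ) ≤ 2 ^ d * (d * Lg) := by nlinarith
  calc (1 : ℝ) + 2 ^ d * (1 + 1 / (2 * ((d : ℝ) - 1))) ^ d * (d * Lg)
      ≤ 1 + 2 ^ d * Real.exp 1 * (d * Lg) := by gcongr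
    _ = 1 + Real.exp 1 * (2 ^ d * (d * Lg)) := by ring
    _ ≤ 1 + 2.7182818286 * (2 ^ d * (d * Lg)) := by gcongr
    _ ≤ 3 * 2 ^ d * (d * Lg) := by nlinarith

end Pool.Agent.Results.MP_eba1ef_gt.AllConvexBodies
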