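import Mathlib
import Pool.Agent.H2R2.Frac.Primal

set_option autoImplicit false

/-!
# The fractional form of the Levi-Hadwiger covering conjecture, with the equality case

For every convex body `K` in dimension `d`, at least one, there is a finite weighted family of
translates of `interior K`, of total weight at most `2 ^ d`, covering every point of `K` with total
weight at least one; and `2 ^ d` is optimal for `K` if and only if `K` is a parallelotope.
-/

open MeasureTheory Module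

theorem Pool.Agent.Results.MP_eba1ef_gt.FractionalTranslates.result
    (d : ℕ) (hd : 1 ≤ d) (K : Set (EuclideanSpace ℝ (Fin d)))
    (hKc : IsCompact K) (hK : Convex ℝ K) (hKi : (interior K).Nonempty) :
    (∃ (T : Finset (EuclideanSpace ℝ (Fin d))) (w : EuclideanSpace ℝ (Fin d) → ℝ),
      (∀ t ∈ T, 0 ≤ w t) ∧ ∑ t ∈ T, w t ≤ 2 ^ d ∧
      ∀ x ∈ K, 1 ≤ ∑ t ∈ T, (interior K).indicator (fun _ => w t) (x - t)) ∧
    ((∀ (T : Finset (EuclideanSpace ℝ (Fin d))) (w : EuclideanSpace ℝ (Fin d) → ℝ),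
      (∀ t ∈ T, 0 ≤ w t) →
      (∀ x ∈ K, 1 ≤ ∑ t ∈ T, (interior K).indicator (fun _ => w t) (x - t)) →
      2 ^ d ≤ ∑ t ∈ T, w t) ↔
    ∃ (p : EuclideanSpace ℝ (Fin d)) (v : Fin d → EuclideanSpace ℝ (Fin d)),
      LinearIndependent ℝ v ∧
      K = {x | ∃ a : Fin d → ℝ, (∀ i, 0 ≤ a i ∧ a i ≤ 1) ∧ x = p + ∑ i, a i • v i}) :=
  Pool.Agent.H2R2.Frac.primal d hd K hKc hK hKi
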