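import Mathlib
import Pool.Agent.H815R2.HadFinal

set_option autoImplicit false

/-!
# MP_eba1ef_gt: centrally symmetric bodies without almost isometric copies of `ℓ₁ⁿ`

Let `K` be a centrally symmetric convex body in `ℝ^d`, i.e. the unit ball of a `d`-dimensional
normed space. If every `n` vectors of `K` have a signed sum in `ρ K`, with `ρ < n` (so the space
contains no almost isometric copy of `ℓ₁ⁿ`), then `K` is covered by
`1 + 16 d log(4d+1) 2^d exp(-(n-ρ)d/(n 2^(n+1)))` translates of its interior, and by `2^d` translates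
as soon as `(n-ρ) d ≥ n 2^(n+1) log(32 d log(4d+1))`.

The proof: a finite subset `U` of `K` no large part of which is covered by one translate would make
the `n`-fold dyadic sums of elements of `±U` spread too evenly over `K` for all of them to have
large norm; this gives one translate of the interior covering many points of `U`, and then the
greedy covering procedure is applied to a net of `K`.
-/

namespace Pool.Agent.Results.MP_eba1ef_gt.NoAlmostEllOne

open MeasureTheory
open scoped Pointwise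
open Pool.Agent.H815R2.Had

theorem balanced_of_symm {E : Type*} [AddCommGroup E] [Module ℝ E] {K : Set E}
    (hK : Convex ℝ K) (hs : ∀ x ∈ K, -x ∈ K) : Balanced ℝ K := by
  rw [balanced_iff_smul_mem]
  intro a ha x hx
  have ha' := abs_le.mp (by simpa using ha : |a| ≤ 1)
  have h := hK hx (hs x hx) (show (0 : ℝ) ≤ (1 + a) / 2 by linarith [ha'.1])
    (show (0 : ℝ) ≤ (1 - a) / 2 by linarith [ha'.2]) (by ring)
  have e : ((1 + a) / 2) • x + ((1 - a) / 2) • (-x) = a • x := by
    rw [smul_neg, ← sub_eq_add_neg, ← sub_smul]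
    congr 1
    ring
  rwa [e] at h

/-- **Main theorem.** -/
theorem result (d : ℕ) (hd : 2 ≤ d) (K : Set (EuclideanSpace ℝ (Fin d)))
    (hK : Convex ℝ K) (hKc : IsCompact K) (hKi : (interior K).Nonempty)
    (hKs : ∀ x ∈ K, -x ∈ K)
    (n : ℕ) (hn : 2 ≤ n) (hnd : 2 * n ≤ d + 4) (ρ : ℝ) (hρ0 : 0 ≤ ρ) (hρn : ρ ≤ n)
    (H : ∀ x : Fin n → EuclideanSpace ℝ (Fin d), (∀ i, x i ∈ K) →
      ∃ s : Fin n → ℝ, (∀ i, s i = 1 ∨ s i = -1) ∧ ∑ i, s i • x i ∈ ρ • K) :
    ∃ T : Finset (EuclideanSpace ℝ (Fin d)),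
      K ⊆ ⋃ t ∈ T, (fun x => t + x) '' interior K ∧
      (T.card : ℝ) ≤ 1 + 16 * d * Real.log (4 * d + 1) * 2 ^ d
        * Real.exp (-((n - ρ) * d / (n * 2 ^ (n + 1)))) ∧
      (n * 2 ^ (n + 1) * Real.log (32 * d * Real.log (4 * d + 1)) ≤ (n - ρ) * d →
        T.card ≤ 2 ^ d) := by
  classical
  -- `0` is an interior point
  obtain ⟨z, hz⟩ := hKi
  have hnegK : -K = K := by
    ext x
    rw [Set.mem_neg]
    exact ⟨fun h => by simpa using hKs _ h, fun h => hKs x h⟩
  have hz' : -z ∈ interior K := by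
    have h1 : -z ∈ -(interior K) := by simpa using hz
    have h2 : -(interior K) = interior (-K) := by
      rw [← Set.image_neg_eq_neg, ← Set.image_neg_eq_neg]
      exact (Homeomorph.neg _).image_interior K
    rw [h2, hnegK] at h1
    exact h1
  have h0i : (0 : EuclideanSpace ℝ (Fin d)) ∈ interior K := by
    have h := hK.interior hz hz' (show (0 : ℝ) ≤ 1 / 2 by norm_num)
      (show (0 : ℝ) ≤ 1 / 2 by norm_num) (by norm_num)
    have e : (1 / 2 : ℝ) • z + (1 / 2 : ℝ) • (-z) = 0 := by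
      rw [smul_neg, add_neg_cancel]
    rwa [e] at h
  have hnhds : K ∈ nhds (0 : EuclideanSpace ℝ (Fin d)) := mem_interior_iff_mem_nhds.mp h0i
  have habs : Absorbent ℝ K := absorbent_nhds_zero hnhds
  let p : Seminorm ℝ (EuclideanSpace ℝ (Fin d)) :=
    gaugeSeminorm (balanced_of_symm hK hKs) hK habs
  have hp : ∀ x, p x = gauge K x := fun x => rfl
  have hcont : Continuous p := continuous_gauge hK hnhds
  have hball : {y : EuclideanSpace ℝ (Fin d) | p y ≤ 1} = K := by
    ext y
    rw [Set.mem_ofPred_eq, hp, gauge_le_one_iff_mem_closure hK hnhds, hKc.isClosed.closure_eq]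
  have hmem : ∀ y, p y ≤ 1 ↔ y ∈ K := by
    intro y
    rw [← hball]
    exact Iff.rfl
  have hvol0 : volume {y : EuclideanSpace ℝ (Fin d) | p y ≤ 1} ≠ 0 := by
    rw [hball]
    exact (Measure.measure_pos_of_mem_nhds volume hnhds).ne'
  have hvolt : volume {y : EuclideanSpace ℝ (Fin d) | p y ≤ 1} ≠ ⊤ := by
    rw [hball]
    exact hKc.measure_lt_top.ne
  have H' : ∀ x : Fin n → EuclideanSpace ℝ (Fin d), (∀ i, p (x i) ≤ 1) →
      ∃ s : Fin n → ℝ, (∀ i, s i = 1 ∨ s i = -1) ∧ p (∑ i, s i • x i) ≤ ρ := by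
    intro x hx
    obtain ⟨s, hs1, hs2⟩ := H x (fun i => (hmem _).mp (hx i))
    exact ⟨s, hs1, gauge_le_of_mem hρ0 hs2⟩
  have hρ1 : 1 ≤ ρ := by
    -- test on `(x₀, 0, ..., 0)` with `p x₀ = 1`
    let e0 : EuclideanSpace ℝ (Fin d) := EuclideanSpace.single ⟨0, by omega⟩ 1
    have he0 : e0 ≠ 0 := by
      intro h
      have := congrArg (fun v : EuclideanSpace ℝ (Fin d) => ‖v‖) h
      simp [e0] at this
    have hpos : 0 < p e0 := by
      rw [hp]
      exact (gauge_pos habs (NormedSpace.isVonNBounded_of_isBounded ℝ hKc.isBounded)).mpr he0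
    let x0 : EuclideanSpace ℝ (Fin d) := (p e0)⁻¹ • e0
    have hx0 : p x0 = 1 := by
      rw [map_smul_eq_mul, Real.norm_of_nonneg (by positivity), inv_mul_cancel₀ hpos.ne']
    obtain ⟨s, hs1, hs2⟩ := H' (fun i => if i = ⟨0, by omega⟩ then x0 else 0) (by
      intro i
      split_ifs
      · exact hx0.le
      · rw [map_zero]; norm_num)
    have hsum : ∑ i, s i • (if i = (⟨0, by omega⟩ : Fin n) then x0 else 0)
        = s ⟨0, by omega⟩ • x0 := by
      simp
    rw [hsum, map_smul_eq_mul, hx0, mul_one] at hs2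
    rcases hs1 ⟨0, by omega⟩ with h | h <;> rw [h] at hs2 <;> simpa using hs2
  obtain ⟨T, hT1, hT2⟩ := cover_explicit volume p hcont hvol0 hvolt d hd
    (by simp) n hn hnd ρ hρ1 hρn H'
  refine ⟨T, ?_, hT1, ?_⟩
  · intro x hx
    obtain ⟨y, hy, hxy⟩ := hT2 x ((hmem x).mpr hx)
    simp only [Set.mem_iUnion]
    refine ⟨y, hy, x - y, ?_, by simp⟩
    exact (gauge_lt_one_iff_mem_interior hK hnhds).mp hxy
  · intro hcond
    have hd' : (2 : ℝ) ≤ d := by exact_mod_cast hd
    have hn' : (2 : ℝ) ≤ n := by exact_mod_cast hn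
    have hlogpos : 1 ≤ Real.log (4 * d + 1) := by
      rw [Real.le_log_iff_exp_le (by linarith)]
      have := Real.exp_one_lt_d9
      linarith
    set L : ℝ := 32 * d * Real.log (4 * d + 1) with hL
    have hL0 : 0 < L := by
      have : 0 < Real.log (4 * (d : ℝ) + 1) := by linarith
      positivity
    have hexp : Real.exp (-((n - ρ) * d / (n * 2 ^ (n + 1)))) ≤ L⁻¹ := by
      rw [← Real.exp_log (inv_pos.mpr hL0), Real.exp_le_exp, Real.log_inv, neg_le_neg_iff,
        le_div_iff₀ (by positivity)]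
      linarith
    have hle : (T.card : ℝ) ≤ 1 + 2 ^ d / 2 := by
      refine hT1.trans ?_
      have h0 : 0 ≤ 16 * d * Real.log (4 * d + 1) * 2 ^ d := by
        have : 0 ≤ Real.log (4 * (d : ℝ) + 1) := by linarith
        positivity
      calc 1 + 16 * d * Real.log (4 * d + 1) * 2 ^ d
            * Real.exp (-((n - ρ) * d / (n * 2 ^ (n + 1))))
          ≤ 1 + 16 * d * Real.log (4 * d + 1) * 2 ^ d * L⁻¹ := by gcongr
        _ = 1 + (L * L⁻¹) * 2 ^ d / 2 := by rw [hL]; ring
        _ = 1 + 2 ^ d / 2 := by rw [mul_inv_cancel₀ hL0.ne', one_mul]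
    have h2 : (2 : ℝ) ≤ 2 ^ d := by
      calc (2 : ℝ) = 2 ^ 1 := by norm_num
        _ ≤ 2 ^ d := pow_le_pow_right₀ (by norm_num) (by omega)
    have h3 : (T.card : ℝ) ≤ ((2 ^ d : ℕ) : ℝ) := by
      push_cast
      linarith
    exact_mod_cast h3

end Pool.Agent.Results.MP_eba1ef_gt.NoAlmostEllOne
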