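import Mathlib
import Pool.Agent.H815R2.FlatThinSup

set_option autoImplicit false

/-!
# MP_eba1ef_gt: centrally symmetric bodies with thin supporting slabs

Let `K` be a centrally symmetric convex body in `ℝ^d` with norm `‖·‖_K`. A linear functional `φ`
with `|φ| ≤ 1` on `K` is called `τ`-thin if the part of `K` outside the slab `|φ| < 1/4` has at
most the fraction `τ` of the volume of `K`. The *thin part* of `K` consists of the points `z ∈ K`
with `φ(z) = ‖z‖_K` for some thin `φ`: it is the cone over the part of the boundary which is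
supported by thin functionals.

We prove: if the thin part has at least the fraction `β` of the volume of `K` then
`c(K) ≤ 1 + 12 d log(4d+1) 2^d τ^(β/16)`, and so `c(K) < 2^d` if `17 d log(4d+1) τ^(β/16) ≤ 1`.

We deduce a bound by the *flatness* of `K`, the average over independent uniform points
`z, z'` of `K` of `|D‖·‖_K(z)[z']|` (the average of the mean of `|φ|` on `K` over the supporting
functionals `φ` chosen by cone measure): `c(K) ≤ 1 + 13 d log(4d+1) 2^d exp(-1/(740 flatness))`.
The flatness is at most `1/R` for a body with covariance matrix `Id` containing a ball of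
radius `R` (for the ball itself `R = √(d+2)`, for the cube `R = √3`).

The proof: if `K` needs many translates, there are points `u ∈ K` which are spread so evenly that
(1) hardly any of them lies in the slab `|φ| ≥ 1/2` of a thin `φ`, and (2) for most `z ∈ K` and
most `u` the point `u + z` of `2K` is as close to the boundary of `2P` as a typical point
of `2K`, where `P ⊇ K` is the intersection of the thin slabs `|φ| ≤ 1`; since cone measure gives
the thin facets the weight `β`, the volume of `K ∩ (1-k/d)P` decays exponentially in `k`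
(Brunn-Minkowski). But if `u + z` is close to the boundary of `2P` then `z + (4k/d)u` is outside
of `P`, which by (1) happens rarely.
-/

namespace Pool.Agent.Results.MP_eba1ef_gt.ThinSlabs

open MeasureTheory
open scoped Pointwise ENNReal
open Pool.Agent.H815R2.Flat Pool.Agent.H815R2.Thin

/-- `φ` is `τ`-thin for `K`: `|φ| ≤ 1` on `K`, and `|φ| ≥ 1/4` holds on at most the fraction `τ`
of `K`. -/
def IsThin {d : ℕ} (K : Set (EuclideanSpace ℝ (Fin d))) (τ : ℝ)
    (φ : EuclideanSpace ℝ (Fin d) →L[ℝ] ℝ) : Prop :=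
  (∀ x ∈ K, |φ x| ≤ 1) ∧ (volume {z ∈ K | 1 / 4 ≤ |φ z|}).toReal ≤ τ * (volume K).toReal

/-- The thin part of `K`: the points `z` of `K` with `φ z = ‖z‖_K` for some `τ`-thin `φ`, where
`‖·‖_K` is the gauge (Minkowski functional) of `K`. -/
def thinPart {d : ℕ} (K : Set (EuclideanSpace ℝ (Fin d))) (τ : ℝ) :
    Set (EuclideanSpace ℝ (Fin d)) :=
  {z ∈ K | ∃ φ : EuclideanSpace ℝ (Fin d) →L[ℝ] ℝ, IsThin K τ φ ∧ φ z = gauge K z}

/-- The flatness of a convex body `K` (with `0` in its interior): the average over `z, z' ∈ K`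
of `|D‖·‖_K(z)[z']|`, where `‖·‖_K` is the gauge (Minkowski functional) of `K`. -/
noncomputable def flatness {d : ℕ} (K : Set (EuclideanSpace ℝ (Fin d))) : ℝ :=
  (∫ z in K, ∫ z' in K, |fderiv ℝ (gauge K) z z'|) / (volume K).toReal ^ 2

theorem balanced_of_symm {E : Type*} [AddCommGroup E] [Module ℝ E] {K : Set E}
    (hK : Convex ℝ K) (hs : ∀ x ∈ K, -x ∈ K) : Balanced ℝ K := by
  rw [balanced_iff_smul_mem]
  intro a ha x hx
  have ha' := abs_le.mp (by simpa using ha : |a| ≤ 1)
  have h := hK hx (hs x hx) (show (0 : ℝ) ≤ (1 + a) / 2 by linarith [ha'.1])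
    (show (0 : ℝ) ≤ (1 - a) / 2 by linarith [ha'.2]) (by ring)
  have e : ((1 + a) / 2) • x + ((1 - a) / 2) • (-x) = a • x := by
    rw [smul_neg, ← sub_eq_add_neg, ← sub_smul]
    congr 1
    ring
  rwa [e] at h

theorem strict_of_bound (d : ℕ) (hd : 2 ≤ d) (n : ℕ) (x : ℝ)
    (h : (n : ℝ) ≤ 1 + 12 * d * Real.log (4 * d + 1) * 2 ^ d * x)
    (hx : 17 * d * Real.log (4 * d + 1) * x ≤ 1) : n < 2 ^ d := by
  have h2 : (4 : ℝ) ≤ 2 ^ d := by
    calc (4 : ℝ) = 2 ^ 2 := by norm_num
      _ ≤ 2 ^ d := pow_le_pow_right₀ (by norm_num) hd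
  have h3 : (n : ℝ) < ((2 ^ d : ℕ) : ℝ) := by
    push_cast
    calc (n : ℝ) ≤ 1 + 12 * d * Real.log (4 * d + 1) * 2 ^ d * x := h
      _ = 1 + 12 / 17 * 2 ^ d * (17 * d * Real.log (4 * d + 1) * x) := by ring
      _ ≤ 1 + 12 / 17 * 2 ^ d * 1 := by gcongr
      _ < 2 ^ d := by linarith
  exact_mod_cast h3

theorem flat_num (ρ : ℝ) (hρ : 0 < ρ) :
    ((4 : ℝ) ^ (1 - 1 / (32 * ρ))) ^ ((1 / 2 : ℝ) / 16)
      ≤ 13 / 12 * Real.exp (-1 / (740 * ρ)) := by
  rw [← Real.rpow_mul (by norm_num), Real.rpow_def_of_pos (by norm_num)]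
  have hlog : Real.log 4 = 2 * Real.log 2 := by
    rw [show (4 : ℝ) = 2 ^ 2 by norm_num, Real.log_pow]
    norm_num
  have h1 := Real.log_two_gt_d9
  have h2 := Real.log_two_lt_d9
  have e : Real.log 4 * ((1 - 1 / (32 * ρ)) * (1 / 2 / 16))
      = Real.log 4 / 32 + -(Real.log 4 / 1024) * (1 / ρ) := by
    field_simp
    ring
  rw [e, Real.exp_add]
  have h3 : Real.exp (Real.log 4 / 32) ≤ 13 / 12 := by
    have h4 := Real.add_one_le_exp (-(Real.log 4 / 32))
    rw [Real.exp_neg] at h4
    have h5 : (12 / 13 : ℝ) ≤ (Real.exp (Real.log 4 / 32))⁻¹ := by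
      refine le_trans ?_ h4
      rw [hlog]
      linarith
    rw [le_inv_comm₀ (by norm_num) (Real.exp_pos _)] at h5
    linarith
  have h6 : Real.exp (-(Real.log 4 / 1024) * (1 / ρ)) ≤ Real.exp (-1 / (740 * ρ)) := by
    apply Real.exp_le_exp.mpr
    have e2 : -1 / (740 * ρ) = -(1 / 740) * (1 / ρ) := by
      field_simp
    rw [e2]
    have h7 : 0 < 1 / ρ := by positivity
    have h8 : -(Real.log 4 / 1024) ≤ -(1 / 740) := by
      rw [hlog]
      linarith
    exact mul_le_mul_of_nonneg_right h8 h7.le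
  exact mul_le_mul h3 h6 (Real.exp_pos _).le (by norm_num)

/-- **Main theorem.** -/
theorem result (d : ℕ) (hd : 2 ≤ d) (K : Set (EuclideanSpace ℝ (Fin d)))
    (hK : Convex ℝ K) (hKc : IsCompact K) (hKi : (interior K).Nonempty)
    (hKs : ∀ x ∈ K, -x ∈ K) :
    (∀ τ β : ℝ, 0 < τ → 0 < β → β ≤ 1 →
      β * (volume K).toReal ≤ (volume (thinPart K τ)).toReal →
      ∃ T : Finset (EuclideanSpace ℝ (Fin d)),
        K ⊆ ⋃ t ∈ T, (fun x => t + x) '' interior K ∧
        (T.card : ℝ) ≤ 1 + 12 * d * Real.log (4 * d + 1) * 2 ^ d * τ ^ (β / 16) ∧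
        (17 * d * Real.log (4 * d + 1) * τ ^ (β / 16) ≤ 1 → T.card < 2 ^ d)) ∧
    (∀ ρ : ℝ, 0 < ρ → flatness K ≤ ρ →
      ∃ T : Finset (EuclideanSpace ℝ (Fin d)),
        K ⊆ ⋃ t ∈ T, (fun x => t + x) '' interior K ∧
        (T.card : ℝ) ≤ 1 + 13 * d * Real.log (4 * d + 1) * 2 ^ d * Real.exp (-1 / (740 * ρ)) ∧
        (19 * d * Real.log (4 * d + 1) * Real.exp (-1 / (740 * ρ)) ≤ 1 → T.card < 2 ^ d)) ∧
    (∀ R : ℝ, 0 < R → Metric.closedBall 0 R ⊆ K →
      (∀ v : EuclideanSpace ℝ (Fin d), ∫ z in K, (inner ℝ v z) ^ 2 ≤ ‖v‖ ^ 2 * (volume K).toReal) →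
      flatness K ≤ 1 / R) := by
  classical
  -- `0` is an interior point
  obtain ⟨z, hz⟩ := hKi
  have hnegK : -K = K := by
    ext x
    rw [Set.mem_neg]
    exact ⟨fun h => by simpa using hKs _ h, fun h => hKs x h⟩
  have hz' : -z ∈ interior K := by
    have h1 : -z ∈ -(interior K) := by simpa using hz
    have h2 : -(interior K) = interior (-K) := by
      rw [← Set.image_neg_eq_neg, ← Set.image_neg_eq_neg]
      exact (Homeomorph.neg _).image_interior K
    rw [h2, hnegK] at h1
    exact h1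
  have h0i : (0 : EuclideanSpace ℝ (Fin d)) ∈ interior K := by
    have h := hK.interior hz hz' (show (0 : ℝ) ≤ 1 / 2 by norm_num)
      (show (0 : ℝ) ≤ 1 / 2 by norm_num) (by norm_num)
    have e : (1 / 2 : ℝ) • z + (1 / 2 : ℝ) • (-z) = 0 := by
      rw [smul_neg, add_neg_cancel]
    rwa [e] at h
  have hnhds : K ∈ nhds (0 : EuclideanSpace ℝ (Fin d)) := mem_interior_iff_mem_nhds.mp h0i
  have habs : Absorbent ℝ K := absorbent_nhds_zero hnhds
  let p : Seminorm ℝ (EuclideanSpace ℝ (Fin d)) :=
    gaugeSeminorm (balanced_of_symm hK hKs) hK habs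
  have hp : ∀ x, p x = gauge K x := fun x => rfl
  have hpf : (gauge K) = (p : EuclideanSpace ℝ (Fin d) → ℝ) := rfl
  have hcont : Continuous p := continuous_gauge hK hnhds
  have hball : {y : EuclideanSpace ℝ (Fin d) | p y ≤ 1} = K := by
    ext y
    rw [Set.mem_ofPred_eq, hp, gauge_le_one_iff_mem_closure hK hnhds, hKc.isClosed.closure_eq]
  have hmem : ∀ y, p y ≤ 1 ↔ y ∈ K := by
    intro y
    rw [← hball]
    exact Iff.rfl
  have hV0 : volume K ≠ 0 := (Measure.measure_pos_of_mem_nhds volume hnhds).ne'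
  have hVt : volume K ≠ ⊤ := hKc.measure_lt_top.ne
  have hvol0 : volume {y : EuclideanSpace ℝ (Fin d) | p y ≤ 1} ≠ 0 := by
    rw [hball]; exact hV0
  have hvolt : volume {y : EuclideanSpace ℝ (Fin d) | p y ≤ 1} ≠ ⊤ := by
    rw [hball]; exact hVt
  have hVr : 0 < (volume K).toReal := ENNReal.toReal_pos hV0 hVt
  have hcover : ∀ T : Finset (EuclideanSpace ℝ (Fin d)),
      (∀ x, p x ≤ 1 → ∃ y ∈ T, p (x - y) < 1) →
      K ⊆ ⋃ t ∈ T, (fun x => t + x) '' interior K := by
    intro T hT x hx
    obtain ⟨y, hy, hxy⟩ := hT x ((hmem x).mpr hx)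
    simp only [Set.mem_iUnion]
    refine ⟨y, hy, x - y, ?_, by simp⟩
    exact (gauge_lt_one_iff_mem_interior hK hnhds).mp hxy
  -- the inner integral
  have hmz : ∀ z : EuclideanSpace ℝ (Fin d), Measurable fun z' : EuclideanSpace ℝ (Fin d) =>
      |fderiv ℝ p z z'| := fun z => ((fderiv ℝ p z).continuous.abs).measurable
  have hin : ∀ z : EuclideanSpace ℝ (Fin d), ∫ z' in K, |fderiv ℝ (gauge K) z z'|
      = (inn p z).toReal := by
    intro z
    rw [hpf, integral_eq_lintegral_of_nonneg_ae (Filter.Eventually.of_forall fun _ => abs_nonneg _)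
      (hmz z).aestronglyMeasurable]
    unfold inn
    rw [hball]
  have hinnm : Measurable (inn p) := by
    have h := (measurable_joint p).abs.ennreal_ofReal
    exact h.lintegral_prod_right'
  have hinnle : ∀ z, inn p z ≤ volume K := by
    intro z
    have := inn_le p hcont z
    rwa [hball] at this
  have hinnt : ∀ z, inn p z < ⊤ := fun z => lt_of_le_of_lt (hinnle z) hVt.lt_top
  have hout : ∫ z in K, ∫ z' in K, |fderiv ℝ (gauge K) z z'|
      = (∫⁻ z in K, inn p z).toReal := by
    simp only [hin]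
    exact integral_toReal hinnm.aemeasurable (Filter.Eventually.of_forall hinnt)
  have hoverV : ∫⁻ z in K, inn p z ≤ volume K * volume K := by
    calc ∫⁻ z in K, inn p z ≤ ∫⁻ _ in K, volume K := lintegral_mono fun z => hinnle z
      _ = volume K * volume K := by rw [setLIntegral_const]
  refine ⟨?_, ?_, ?_⟩
  · intro τ β hτ hβ0 hβ1 hthin
    have hthinfin : volume (thinPart K τ) ≠ ⊤ :=
      ne_top_of_le_ne_top hVt (measure_mono fun z hz => hz.1)
    have hS : ENNReal.ofReal β * volume {y : EuclideanSpace ℝ (Fin d) | p y ≤ 1}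
        ≤ volume {z : EuclideanSpace ℝ (Fin d) | p z ≤ 1 ∧ ∃ φ, IsThinS p τ φ ∧ φ z = p z} := by
      rw [hball]
      have h1 : ENNReal.ofReal β * volume K ≤ volume (thinPart K τ) := by
        rw [← ENNReal.toReal_le_toReal (ENNReal.mul_ne_top ENNReal.ofReal_ne_top hVt) hthinfin,
          ENNReal.toReal_mul, ENNReal.toReal_ofReal hβ0.le]
        exact hthin
      refine h1.trans (measure_mono ?_)
      rintro z ⟨hz, φ, ⟨hφ1, hφ2⟩, hφz⟩
      refine ⟨(hmem z).mpr hz, φ, ⟨?_, ?_⟩, hφz⟩
      · exact abs_le_of_ball p φ fun y hy => hφ1 y ((hmem y).mp hy)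
      · rw [hball]
        have e : {z : EuclideanSpace ℝ (Fin d) | p z ≤ 1 ∧ 1 / 4 ≤ |φ z|}
            = {z ∈ K | 1 / 4 ≤ |φ z|} := by
          ext y
          simp only [Set.mem_ofPred_eq, hmem]
        rw [e, ← ENNReal.toReal_le_toReal
          (ne_top_of_le_ne_top hVt (measure_mono fun z hz => hz.1))
          (ENNReal.mul_ne_top ENNReal.ofReal_ne_top hVt), ENNReal.toReal_mul,
          ENNReal.toReal_ofReal hτ.le]
        exact hφ2
    obtain ⟨T, hT1, hT2⟩ := thin_cover hd p hcont hvol0 hvolt β τ hβ0 hβ1 hτ hS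
    exact ⟨T, hcover T hT2, hT1, fun hx => strict_of_bound d hd _ _ hT1 hx⟩
  · intro ρ hρ hflat
    have hF : ∫⁻ z in {y : EuclideanSpace ℝ (Fin d) | p y ≤ 1}, inn p z
        ≤ ENNReal.ofReal ρ * (volume {y : EuclideanSpace ℝ (Fin d) | p y ≤ 1}
          * volume {y : EuclideanSpace ℝ (Fin d) | p y ≤ 1}) := by
      rw [hball]
      have hfin1 : ∫⁻ z in K, inn p z ≠ ⊤ := ne_top_of_le_ne_top (ENNReal.mul_ne_top hVt hVt) hoverV
      rw [← ENNReal.toReal_le_toReal hfin1
        (ENNReal.mul_ne_top ENNReal.ofReal_ne_top (ENNReal.mul_ne_top hVt hVt)),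
        ENNReal.toReal_mul, ENNReal.toReal_mul, ENNReal.toReal_ofReal hρ.le, ← hout]
      unfold flatness at hflat
      rw [div_le_iff₀ (by positivity)] at hflat
      refine hflat.trans (le_of_eq ?_)
      ring
    have hthin := thin_of_flat p hcont hvol0 hvolt ρ hρ hF
    obtain ⟨T, hT1, hT2⟩ := thin_cover hd p hcont hvol0 hvolt (1 / 2)
      ((4 : ℝ) ^ (1 - 1 / (32 * ρ))) (by norm_num) (by norm_num) (by positivity) hthin
    have hnum := flat_num ρ hρ
    have hd' : (2 : ℝ) ≤ d := by exact_mod_cast hd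
    have hlogpos : 0 ≤ Real.log (4 * d + 1) := Real.log_nonneg (by linarith)
    have hc0 : 0 ≤ 12 * (d : ℝ) * Real.log (4 * d + 1) * 2 ^ d := by positivity
    have hT3 : (T.card : ℝ)
        ≤ 1 + 12 * d * Real.log (4 * d + 1) * 2 ^ d * (13 / 12 * Real.exp (-1 / (740 * ρ))) :=
      hT1.trans (add_le_add le_rfl (mul_le_mul_of_nonneg_left hnum hc0))
    refine ⟨T, hcover T hT2, hT3.trans (le_of_eq (by ring)), fun hx => ?_⟩
    refine strict_of_bound d hd _ _ hT3 ?_
    have hex := Real.exp_pos (-1 / (740 * ρ))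
    have h1 : 0 ≤ (d : ℝ) * Real.log (4 * d + 1) * Real.exp (-1 / (740 * ρ)) := by positivity
    linarith
  · intro R hR hball' hcov
    have hz1 : ∀ z, (inn p z).toReal ≤ 1 / R * (volume K).toReal := by
      intro z
      rw [← hin z, hpf]
      set v : EuclideanSpace ℝ (Fin d) :=
        (InnerProductSpace.toDual ℝ (EuclideanSpace ℝ (Fin d))).symm (fderiv ℝ p z) with hv
      have hφ : ∀ x, fderiv ℝ p z x = inner ℝ v x := by
        intro x
        rw [hv, InnerProductSpace.toDual_symm_apply]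
      have hvR : ‖v‖ ≤ 1 / R := by
        rw [le_div_iff₀ hR]
        rcases eq_or_ne v 0 with h | h
        · rw [h]; simp
        · have hvn : 0 < ‖v‖ := norm_pos_iff.mpr h
          have h1 : (R / ‖v‖) • v ∈ K := by
            apply hball'
            rw [mem_closedBall_zero_iff, norm_smul, Real.norm_of_nonneg (by positivity)]
            apply le_of_eq
            field_simp
          have h2 := (le_abs_self _).trans ((fderiv_abs_le p z ((R / ‖v‖) • v)).trans
            ((hmem _).mpr h1))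
          rw [hφ, inner_smul_right, real_inner_self_eq_norm_sq] at h2
          calc ‖v‖ * R = R / ‖v‖ * ‖v‖ ^ 2 := by field_simp
            _ ≤ 1 := h2
      have hK2 : IntegrableOn (fun x : EuclideanSpace ℝ (Fin d) => (inner ℝ v x) ^ 2) K := by
        refine ContinuousOn.integrableOn_compact hKc ?_
        fun_prop
      calc ∫ z' in K, |fderiv ℝ p z z'|
          ≤ ∫ z' in K, (R / 2 * (inner ℝ v z') ^ 2 + 1 / (2 * R)) := by
            refine integral_mono_of_nonneg (Filter.Eventually.of_forall fun _ => abs_nonneg _)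
              ?_ (Filter.Eventually.of_forall ?_)
            · exact (hK2.const_mul _).add (integrableOn_const hVt)
            · intro x
              show |fderiv ℝ p z x| ≤ R / 2 * (inner ℝ v x) ^ 2 + 1 / (2 * R)
              rw [hφ x]
              have h1 : 0 ≤ (R * |inner ℝ v x| - 1) ^ 2 / (2 * R) := by positivity
              have h2 : (R * |inner ℝ v x| - 1) ^ 2 / (2 * R)
                  = R / 2 * (inner ℝ v x) ^ 2 + 1 / (2 * R) - |inner ℝ v x| := by
                rw [← sq_abs (inner ℝ v x)]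
                field_simp
                ring
              linarith
        _ = R / 2 * (∫ z' in K, (inner ℝ v z') ^ 2) + 1 / (2 * R) * (volume K).toReal := by
            rw [integral_add (hK2.const_mul _) (integrableOn_const hVt), integral_const_mul,
              setIntegral_const, smul_eq_mul, Measure.real]
            ring
        _ ≤ R / 2 * (‖v‖ ^ 2 * (volume K).toReal) + 1 / (2 * R) * (volume K).toReal := by
            gcongr
            exact hcov v
        _ ≤ R / 2 * ((1 / R) ^ 2 * (volume K).toReal) + 1 / (2 * R) * (volume K).toReal := by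
            gcongr
        _ = 1 / R * (volume K).toReal := by
            field_simp
            ring
    unfold flatness
    rw [div_le_iff₀ (by positivity)]
    simp only [hin]
    calc ∫ z in K, (inn p z).toReal ≤ ∫ _ in K, 1 / R * (volume K).toReal := by
          refine integral_mono_of_nonneg (Filter.Eventually.of_forall fun _ => ENNReal.toReal_nonneg)
            ?_ (Filter.Eventually.of_forall hz1)
          exact integrableOn_const hVt
      _ = 1 / R * (volume K).toReal ^ 2 := by
          rw [setIntegral_const, smul_eq_mul, Measure.real]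
          ring

end Pool.Agent.Results.MP_eba1ef_gt.ThinSlabs
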